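import Pool.Agent.R918.MidMat
import Pool.Agent.N208.TS.Main

set_option autoImplicit false
set_option linter.unusedSectionVars false
set_option linter.unusedVariables false

/-!
# Motives in the tensor category of an abelian variety whose Lie algebra is rigid and perfect

`Rigid A`: every full subalgebra of the Lie algebra of the Hodge group is everything.
-/

open Module Function TensorProduct Matrix

noncomputable section

namespace Pool.Agent.N113.ME

open Pool.Agent.Y102 Pool.Agent.W516.DR Pool.Agent.H204R3.GP Pool.Agent.W516.KC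
  Pool.Agent.H204R3.SP Pool.Agent.TH119.MX Pool.Agent.R917 Pool.Agent.N208.AM Pool.Agent.N208.AD
  Pool.Agent.N208.TS

variable {g : ℕ} {A : AbVar g} {s n : ℕ} {r : Fin s → ℕ} {B : Fin n → Ten A r} {w : Fin s → ℤ}
  {P : Matrix (Fin n) (Fin n) ℂ} {Wt : Matrix (Fin n) (Fin n) ℚ}
  {H : Set (Matrix (Fin n) (Fin n) ℂ)} {N : Matrix (Fin n) (Fin n) ℝ}

/-- If the Lie algebra is perfect, its centre acts trivially on all motives. -/
theorem noCentre_of_perfect (h : Mot w B P) (hper : ∀ X ∈ A.NA, X ∈ der A.NA) : NoCentre B := by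
  intro X hX hcomm
  obtain ⟨N, hN, t, X', M', h1, h2⟩ := exists_J h
  have h4 : N ∈ spR B (A.NA : Set (Module.End ℚ A.H1)) := by
    rw [h2]
    exact Submodule.sum_mem _ fun k _ => Submodule.smul_mem _ _ (mem_spR (h1 k).1 (h1 k).2)
  obtain ⟨Nc, hNc, Nd, hNd, hNe⟩ := exists_dec h h4
  obtain ⟨M, hM⟩ := h.st X hX
  have h5 := (dat h hN hNc hNd hNe).cen (rq M) (mem_spR (hper X hX) hM) fun x hx => by
    induction hx using Submodule.span_induction with
    | mem x hx =>
      obtain ⟨Y, hY, M2, hM2, rfl⟩ := hx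
      have h6 := (hM.br hM2).uniq h.li (hcomm Y (der_NA_le hY))
      rw [RLie.br_anti, RLie.br_apply, ← rq_mul, ← rq_mul, ← rq_sub, h6, rq_zero, neg_zero]
    | zero => rw [map_zero]
    | add a b _ _ ha hb => rw [map_add, ha, hb, add_zero]
    | smul c a _ ha => rw [map_smul, ha, smul_zero]
  have h6 : M = 0 := by
    ext i j
    have h7 := congrFun (congrFun h5 i) j
    change ((M i j : ℚ) : ℝ) = 0 at h7
    exact_mod_cast h7
  rw [h6] at hM
  exact hM

/-- **Rigid and perfect**: the circle and the weights are in every group which contains the periods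
of a motive. -/
theorem all_B (h : Mot w B P) (hW : WRel w B Wt) (hH : PtM P H)
    (hrig : ∀ 𝔥 : Submodule ℚ (Module.End ℚ A.H1), A.Full 𝔥 → A.NA ≤ 𝔥)
    (hper : ∀ X ∈ A.NA, X ∈ der A.NA)
    (hN : RelR B AbVar.JJ N) {z : ℂ} (hz : z ≠ 0) :
    NormedSpace.exp (KK Wt N z) ∈ H ∧ HRel w B z (NormedSpace.exp (KK Wt N z)) := by
  have hq := qM_full h hW hH
  have hle := hrig _ hq
  have h5 : N ∈ spR B (dq B Wt H : Set (Module.End ℚ A.H1)) := by
    obtain ⟨N', hN', t, X, M, h1, h2⟩ := exists_J h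
    have h3 : N = N' := hN.uniq h.li hN'
    subst h3
    have h4 : N ∈ spR B (A.NA : Set (Module.End ℚ A.H1)) := by
      rw [h2]
      exact Submodule.sum_mem _ fun k _ => Submodule.smul_mem _ _ (mem_spR (h1 k).1 (h1 k).2)
    refine spR_mono ?_ h4
    intro X hX
    have h6 := hper X hX
    have h7 : der A.NA ≤ dq B Wt H := by
      unfold dq der
      exact Submodule.span_mono fun _ ⟨X, hX, Y, hY, e⟩ => ⟨X, hle hX, Y, hle hY, e⟩
    exact h7 h6
  refine ⟨exp_mem hH.grp fun d => ?_, hrel_exp hW hN hz⟩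
  unfold KK
  exact ((Wt_mem h hW hH (noCentre_of_perfect h hper) d).smul _).add ((stab_spR h hW h5 d).smul _)

section Mid

variable {k m NN : ℕ} {a b : Fin k → Fin (2 * m) → Matrix (Fin NN) (Fin NN) ℂ}
  {P' : Matrix (Fin (2 * g)) (Fin NN) ℂ} {Q' : Matrix (Fin NN) (Fin (2 * g)) ℂ}

open Pool.Agent.R918

/-- The complex Lie algebra of middle exterior type, from the algebra which it generates. -/
theorem eq_slC {U : Type} [AddCommGroup U] [Module ℂ U] [FiniteDimensional ℂ U] {n' : ℕ}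
    {a b : Fin k × Fin n' → Module.End ℂ U} {P : U →ₗ[ℂ] (ℂ ⊗[ℚ] A.H1)}
    {Q : (ℂ ⊗[ℚ] A.H1) →ₗ[ℂ] U} (hm : 2 * m = n') (hcar : Car a b) (hs : MidSet a b P Q)
    [Nontrivial (ℂ ⊗[ℚ] A.H1)]
    (hle : cx A.NA ≤ slC a b P Q)
    (hgen : ∀ σ i j, cmp P Q (a (σ, i) * b (σ, j)) ∈
      Algebra.adjoin ℂ (cx A.NA : Set (Module.End ℂ (ℂ ⊗[ℚ] A.H1)))) :
    cx A.NA = slC a b P Q := by
  have hmid : MidHyp a b P Q (cx A.NA) :=
    { car := hcar
      ms := hs
      hle := fun x hx => hle hx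
      hbr := (full_NA (A := A)).cx_br'
      gen := hgen }
  refine le_antisymm hle ?_
  rintro _ ⟨M, h2, h3, rfl⟩
  exact hmid.all_mem hm M h2 h3

/-- Abelian varieties of middle exterior type are rigid and perfect. -/
theorem rigid_of_middle
    (haa : ∀ σ i τ j, a σ i * a τ j = -(a τ j * a σ i))
    (hbb : ∀ σ i τ j, b σ i * b τ j = -(b τ j * b σ i))
    (hab : ∀ σ i τ j, a σ i * b τ j + b τ j * a σ i = if σ = τ ∧ i = j then 1 else 0)
    (hPQ : P' * Q' = 1)
    (hQ : ∀ v, (∃ w, v = Q'.mulVec w) ↔ ∀ σ, (quant a b σ 1).mulVec v = (m : ℂ) • v)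
    (hle : Submodule.span ℂ {Y | ∃ X ∈ A.NA, Y = toC X} ≤
      Submodule.span ℂ {Y | ∃ σ x, Matrix.trace x = 0 ∧ Y = P' * quant a b σ x * Q'})
    (hgen : ∀ σ i j, P' * (a σ i * b σ j) * Q' ∈
      Algebra.adjoin ℂ (Submodule.span ℂ {Y | ∃ X ∈ A.NA, Y = toC X} :
        Set (Matrix (Fin (2 * g)) (Fin (2 * g)) ℂ))) :
    (∀ 𝔥 : Submodule ℚ (Module.End ℚ A.H1), A.Full 𝔥 → A.NA ≤ 𝔥) ∧
      ∀ X ∈ A.NA, X ∈ der A.NA := by
  rcases subsingleton_or_nontrivial (ℂ ⊗[ℚ] A.H1) with hs | hnt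
  · have h0 : ∀ (S : Submodule ℚ (Module.End ℚ A.H1)) (X : Module.End ℚ A.H1), X ∈ S := by
      intro S X
      refine mem_of_bc ?_
      have : X.baseChange ℂ = 0 := by
        ext x
        exact Subsingleton.elim _ _
      rw [this]
      exact Submodule.zero_mem _
    exact ⟨fun 𝔥 _ X _ => h0 _ X, fun X _ => h0 _ X⟩
  have hcar := car_opl haa hbb hab
  have hms := midSet_of (P := P') (Q := Q') rfl hPQ hQ
  have h1 : cx A.NA ≤ slC (opl a) (opl b) (PP P') (QQ Q') := by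
    rw [← map_lie, ← slC_eq]
    exact Submodule.map_mono hle
  have h2 : ∀ σ i j, cmp (PP P') (QQ Q') (opl a (σ, i) * opl b (σ, j)) ∈
      Algebra.adjoin ℂ (cx A.NA : Set (Module.End ℂ (ℂ ⊗[ℚ] A.H1))) := by
    intro σ i j
    have h3 : opl a (σ, i) * opl b (σ, j) = Matrix.toLinAlgEquiv' (a σ i * b σ j) := by
      rw [map_mul]
      rfl
    rw [h3, cmp_PQ, ← map_lie]
    have h1 : ∀ x ∈ Algebra.adjoin ℂ
        (Submodule.span ℂ {Y | ∃ X ∈ A.NA, Y = toC X} : Set (Matrix (Fin (2 * g)) (Fin (2 * g)) ℂ)),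
        matE (2 * g) x ∈ Algebra.adjoin ℂ ((Submodule.span ℂ {Y | ∃ X ∈ A.NA, Y = toC X}).map
          (matE (2 * g)).toLinearMap : Set (Module.End ℂ (ℂ ⊗[ℚ] A.H1))) := by
      intro x hx
      induction hx using Algebra.adjoin_induction with
      | mem x hx => exact Algebra.subset_adjoin ⟨x, hx, rfl⟩
      | algebraMap r =>
        rw [AlgEquiv.commutes]
        exact Subalgebra.algebraMap_mem _ r
      | add x y _ _ hx hy => rw [map_add]; exact Subalgebra.add_mem _ hx hy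
      | mul x y _ _ hx hy => rw [map_mul]; exact Subalgebra.mul_mem _ hx hy
    exact h1 _ (hgen σ i j)
  have heq := eq_slC rfl hcar hms h1 h2
  refine ⟨fun 𝔥 h𝔥 => full_middle h𝔥 rfl hcar hms heq, ?_⟩
  rcases Nat.eq_zero_or_pos (2 * m) with hn0 | hn0
  · intro X hX
    have h1 := bc_mem hX
    rw [heq] at h1
    obtain ⟨M, -, -, h4⟩ := h1
    have hM : M = 0 := by
      ext p q
      have := p.2.2
      omega
    rw [hM, map_zero, map_zero] at h4
    refine mem_of_bc ?_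
    rw [h4]
    exact Submodule.zero_mem _
  · refine perfect_of ?_
    rw [heq]
    exact slC_perfect hcar hms hn0

/-- All de Rham-Betti classes are Hodge classes. -/
theorem hodge_of_rigid (hrig : ∀ 𝔥 : Submodule ℚ (Module.End ℚ A.H1), A.Full 𝔥 → A.NA ≤ 𝔥) :
    A.NA ≤ A.LA := hrig _ A.full_LA

end Mid

end Pool.Agent.N113.ME
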